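import Pool.Agent.H664.QK.Stm

/-!
Project QK (helper664), job KCL: every countable set of complex numbers is contained in a countable
subfield which contains all nondegenerate zeros of systems of exponential polynomial equations.
-/

set_option autoImplicit false

namespace Pool.Agent.H588.QK

open MvPolynomial Cardinal Pool.Agent.H664.QK

/-- the nondegenerate zeros of a system over `K` -/
def nz (K : Subfield ℂ) {n : ℕ} (G : Fin n → MvPolynomial (Fin n ⊕ Fin n) K) :
    Set (Fin n → ℂ) :=
  {t : Fin n → ℂ | (∀ j, aeval (ex t) (G j) = 0) ∧ (jac K G t).det ≠ 0}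

/-- the coordinates of all nondegenerate zeros of all systems over `K` -/
def cz (K : Subfield ℂ) : Set ℂ :=
  ⋃ (n : ℕ) (G : Fin n → MvPolynomial (Fin n ⊕ Fin n) K) (i : Fin n),
    (fun t : Fin n → ℂ => t i) '' nz K G

/-- adding the nondegenerate zeros -/
noncomputable def nxt (K : Subfield ℂ) : Subfield ℂ := Subfield.closure ((K : Set ℂ) ∪ cz K)

theorem closure_countable {S : Set ℂ} (hS : S.Countable) :
    ((Subfield.closure S : Subfield ℂ) : Set ℂ).Countable := by
  have h1 := Subfield.cardinalMk_closure_le_max S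
  rw [← Cardinal.le_aleph0_iff_set_countable] at hS ⊢
  exact h1.trans (max_le hS le_rfl)

theorem countable_mvPolynomial (K : Subfield ℂ) (hK : (K : Set ℂ).Countable) (n : ℕ) :
    Countable (MvPolynomial (Fin n ⊕ Fin n) K) := by
  have h1 : Countable K := hK.to_subtype
  rw [← Cardinal.mk_le_aleph0_iff]
  refine (MvPolynomial.cardinalMk_le_max (σ := Fin n ⊕ Fin n) (R := K)).trans ?_
  refine max_le (max_le ?_ ?_) le_rfl
  · exact Cardinal.mk_le_aleph0_iff.2 h1
  · exact Cardinal.mk_le_aleph0_iff.2 inferInstance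

theorem cz_countable (h : S_ndz) (K : Subfield ℂ) (hK : (K : Set ℂ).Countable) :
    (cz K).Countable := by
  refine Set.countable_iUnion fun n => ?_
  have h1 := countable_mvPolynomial K hK n
  refine Set.countable_iUnion fun G => ?_
  refine Set.countable_iUnion fun i => ?_
  exact (h K n G).image _

theorem nxt_countable (h : S_ndz) (K : Subfield ℂ) (hK : (K : Set ℂ).Countable) :
    ((nxt K : Subfield ℂ) : Set ℂ).Countable :=
  closure_countable (hK.union (cz_countable h K hK))

theorem le_nxt (K : Subfield ℂ) : K ≤ nxt K := fun _ hx =>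
  Subfield.subset_closure (Or.inl hx)

theorem mem_nxt {K : Subfield ℂ} {n : ℕ} (G : Fin n → MvPolynomial (Fin n ⊕ Fin n) K)
    {t : Fin n → ℂ} (h0 : ∀ j, aeval (ex t) (G j) = 0) (h1 : (jac K G t).det ≠ 0) (i : Fin n) :
    t i ∈ nxt K := by
  refine Subfield.subset_closure (Or.inr ?_)
  refine Set.mem_iUnion.2 ⟨n, Set.mem_iUnion.2 ⟨G, Set.mem_iUnion.2 ⟨i, ?_⟩⟩⟩
  exact ⟨t, ⟨h0, h1⟩, rfl⟩

/-- the tower -/
noncomputable def tow (A : Set ℂ) : ℕ → Subfield ℂ
  | 0 => Subfield.closure A
  | i + 1 => nxt (tow A i)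

theorem tow_mono (A : Set ℂ) : Monotone (tow A) :=
  monotone_nat_of_le_succ fun i => le_nxt (tow A i)

theorem tow_countable (h : S_ndz) {A : Set ℂ} (hA : A.Countable) (i : ℕ) :
    ((tow A i : Subfield ℂ) : Set ℂ).Countable := by
  induction i with
  | zero => exact closure_countable hA
  | succ i ih => exact nxt_countable h _ ih

/-- systems over a union of a chain of subfields are systems over one of them -/
theorem descend {L : ℕ → Subfield ℂ} (hL : Monotone L) {K : Subfield ℂ}
    (hK : ∀ x, x ∈ K ↔ ∃ i, x ∈ L i) {n : ℕ} (G : Fin n → MvPolynomial (Fin n ⊕ Fin n) K) :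
    ∃ (i : ℕ) (hi : L i ≤ K) (G' : Fin n → MvPolynomial (Fin n ⊕ Fin n) (L i)),
      ∀ j, MvPolynomial.map (Subfield.inclusion hi) (G' j) = G j := by
  classical
  have h1 : ∀ c : K, ∃ i, (c : ℂ) ∈ L i := fun c => (hK c).1 c.2
  choose f hf using h1
  set i := (Finset.univ : Finset (Fin n)).sup (fun j => (G j).coeffs.sup f) with hi
  have hle : L i ≤ K := fun x hx => (hK x).2 ⟨i, hx⟩
  refine ⟨i, hle, ?_⟩
  have h2 : ∀ j, ∃ g : MvPolynomial (Fin n ⊕ Fin n) (L i),
      MvPolynomial.map (Subfield.inclusion hle) g = G j := by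
    intro j
    have h3 : G j ∈ Set.range (MvPolynomial.map (σ := Fin n ⊕ Fin n)
        (Subfield.inclusion hle)) := by
      rw [MvPolynomial.mem_range_map_iff_coeffs_subset]
      intro c hc
      have h4 : f c ≤ i :=
        (Finset.le_sup (f := f) (Finset.mem_coe.1 hc)).trans
          (Finset.le_sup (f := fun j => (G j).coeffs.sup f) (Finset.mem_univ j))
      exact ⟨⟨c, hL h4 (hf c)⟩, Subtype.ext rfl⟩
    exact h3
  choose G' hG' using h2
  exact ⟨G', hG'⟩

theorem aeval_map_incl {L K : Subfield ℂ} (h : L ≤ K) {σ : Type} (z : σ → ℂ)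
    (g : MvPolynomial σ L) :
    aeval z (MvPolynomial.map (Subfield.inclusion h) g) = aeval z g := by
  rw [MvPolynomial.aeval_def, MvPolynomial.aeval_def, MvPolynomial.eval₂_map]
  rfl

theorem jac_map {L K : Subfield ℂ} (h : L ≤ K) {n : ℕ}
    (G' : Fin n → MvPolynomial (Fin n ⊕ Fin n) L) (G : Fin n → MvPolynomial (Fin n ⊕ Fin n) K)
    (hG : ∀ j, MvPolynomial.map (Subfield.inclusion h) (G' j) = G j) (t : Fin n → ℂ) :
    jac K G t = jac L G' t := by
  ext j i
  unfold jac
  rw [Matrix.of_apply, Matrix.of_apply, ← hG j, MvPolynomial.pderiv_map, MvPolynomial.pderiv_map,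
    aeval_map_incl, aeval_map_incl]

/-- **JOB KCL.** -/
theorem kcl (h : S_ndz) : S_kcl := by
  intro A hA
  have hmono := tow_mono A
  have hdir : Directed (· ≤ ·) (tow A) := hmono.directed_le
  have hmem : ∀ x, x ∈ (⨆ i, tow A i : Subfield ℂ) ↔ ∃ i, x ∈ tow A i := fun x =>
    Subfield.mem_iSup_of_directed hdir
  refine ⟨⨆ i, tow A i, ?_, ?_, ?_⟩
  · rw [Subfield.coe_iSup_of_directed hdir]
    exact Set.countable_iUnion fun i => tow_countable h hA i
  · intro x hx
    exact (hmem x).2 ⟨0, Subfield.subset_closure hx⟩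
  · intro n G t h0 h1 i
    obtain ⟨l, hl, G', hG'⟩ := descend hmono hmem G
    refine (hmem _).2 ⟨l + 1, ?_⟩
    refine mem_nxt (K := tow A l) G' (fun j => ?_) ?_ i
    · rw [← aeval_map_incl hl, hG']
      exact h0 j
    · rw [← jac_map hl G' G hG' t]
      exact h1

end Pool.Agent.H588.QK
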